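import Pool.Agent.Q212.RF
import Pool.Agent.Q212.Kunen

/-!
# `MP_e112c8_lc`: the successor levels of the well-founded part of the Rudin-Frolík order

*Prove or disprove: for every integer `n > 0`,
`wf_{n+1} = {f~(u) : f one-to-one with discrete range, {u} ∪ ran f ⊆ wf_n}`. The following instance
for `n = 1` is asked along with it: let `u` and all `f(i)` be discretely weak p-points. Must `f~(u)`
lie in `wf_{≤ 2}`?*

The equality holds for `n = 1` and it fails for each `n ≥ 2`. The ranks are in fact additive: for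
all finite `n` and `m` the set `{f~(u) : f one-to-one with discrete range, u ∈ wf_n, ran f ⊆ wf_m}`
is equal to `wf_{n+m}`. So the displayed set is `wf_{2n}`, which is disjoint from `wf_{n+1}` when
`n ≥ 2`, and all the sets `wf_n` are non-empty. The answer to the question on discretely weak
p-points is yes, since they belong to `wf_1`.

For the upper bound of the rank of `q = f~(u)`, let `v < q`. By the comparison theorem of Frolík and
Rudin either `v ≤ u` or `u ≤ v`, and in the latter case `v = x~(u)` where `x(i) < f(i)` for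
`u`-almost all `i`; use induction on `m`. For the lower bound, take `v_i < f(i)` and consider the
ultrafilter `v < q` which is the limit along `u` of copies of the `v_i` on disjoint sets.
-/

set_option autoImplicit false

open Set Filter

namespace Pool.Agent.Results.MP_e112c8_lc.SuccessorLevels

open Pool.Agent.Q212.RF

/-- `wf_α`: the ultrafilters of the well-founded part of the Rudin-Frolík order of rank `α`. -/
def WF (α : Ordinal.{0}) : Set (Ultrafilter ℕ) := {u | ∃ h : Acc RFLT u, h.rank = α}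

/-- The set of all `f~(u)` where `f` is one-to-one and has discrete range, `u ∈ wf_α` and
`ran f ⊆ wf_β`. -/
def Sums (α β : Ordinal.{0}) : Set (Ultrafilter ℕ) :=
  {q | ∃ (f : ℕ → Ultrafilter ℕ) (u : Ultrafilter ℕ), Function.Injective f ∧
    IsDiscreteSet (range f) ∧ u ∈ WF α ∧ (∀ i, f i ∈ WF β) ∧ q = u.bind f}

theorem rkLT_iff (k : ℕ) (u : Ultrafilter ℕ) :
    RkLT k u ↔ ∃ h : Acc RFLT u, h.rank < (k : Ordinal.{0}) := by
  induction k generalizing u with
  | zero =>
    constructor
    · exact fun h => h.elim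
    · rintro ⟨h, hlt⟩
      exact absurd hlt (by simp)
  | succ k ih =>
    constructor
    · intro h
      refine ⟨Acc.intro u fun v hv => ((ih v).mp (h v hv)).choose, ?_⟩
      rw [Nat.cast_succ, ← Order.succ_eq_add_one, Order.lt_succ_iff, Acc.rank_eq]
      refine Ordinal.iSup_le fun v => ?_
      exact Order.succ_le_of_lt ((ih v.1).mp (h v.1 v.2)).choose_spec
    · rintro ⟨h, hlt⟩ v hv
      refine (ih v).mpr ⟨h.inv hv, ?_⟩
      rw [Nat.cast_succ, ← Order.succ_eq_add_one, Order.lt_succ_iff] at hlt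
      exact (Acc.rank_lt_of_rel h hv).trans_le hlt

theorem mem_WF_iff (k : ℕ) (u : Ultrafilter ℕ) : u ∈ WF k ↔ RkEQ k u := by
  unfold RkEQ
  rw [rkLT_iff, rkLT_iff]
  constructor
  · rintro ⟨h, hk⟩
    refine ⟨⟨h, ?_⟩, ?_⟩
    · rw [hk]
      exact_mod_cast Nat.lt_succ_self k
    · rintro ⟨h', hk'⟩
      rw [hk] at hk'
      exact lt_irrefl _ hk'
  · rintro ⟨⟨h, hk⟩, h2⟩
    refine ⟨h, le_antisymm ?_ ?_⟩
    · rwa [Nat.cast_succ, ← Order.succ_eq_add_one, Order.lt_succ_iff] at hk
    · by_contra hcon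
      exact h2 ⟨h, not_le.mp hcon⟩

/-- Additivity. -/
theorem wf_add (n m : ℕ) : WF ((n + m : ℕ) : Ordinal.{0}) = Sums n m := by
  ext q
  rw [mem_WF_iff]
  constructor
  · intro h
    obtain ⟨u, f, h1, h2, h3, h4, h5⟩ := h.decompose
    exact ⟨f, u, h1, h2, (mem_WF_iff n u).mpr h3, fun i => (mem_WF_iff m _).mpr (h4 i), h5⟩
  · rintro ⟨f, u, h1, h2, h3, h4, h5⟩
    obtain ⟨c, hc⟩ := exists_sep h1 h2
    refine RkEQ.add (f := f) (c := c) ⟨h5, Filter.mem_of_superset Filter.univ_mem fun i _ => hc i⟩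
      ((mem_WF_iff n u).mp h3) (Filter.mem_of_superset Filter.univ_mem fun i _ => ?_)
    exact (mem_WF_iff m _).mp (h4 i)

/-- There are discretely weak p-points (Kunen's theorem). -/
theorem exists_dwp : ∃ u, DiscretelyWeakPPoint u := by
  have hp : Pool.Agent.Q212.RK.NonPrincipal (hyperfilter ℕ) := by
    intro n hn
    have h1 : ({n}ᶜ : Set ℕ) ∈ hyperfilter ℕ :=
      Filter.mem_hyperfilter_of_finite_compl (by rw [compl_compl]; exact finite_singleton n)
    rw [hn, Ultrafilter.mem_pure] at h1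
    exact h1 rfl
  obtain ⟨t, ht1, _⟩ := Pool.Agent.Q212.Kunen.exists_weakPPoints Unit (fun _ => hyperfilter ℕ)
    (fun _ => hp)
  exact ⟨t (), (ht1 ()).1, fun D hD _ h => (ht1 ()).2 D hD h⟩

theorem wf_nonempty (n : ℕ) : (WF (n : Ordinal.{0})).Nonempty := by
  obtain ⟨p, hp⟩ := exists_dwp
  have h1 : (WF ((1 : ℕ) : Ordinal.{0})).Nonempty := ⟨p, (mem_WF_iff 1 p).mpr hp.rkEQ⟩
  induction n with
  | zero => exact ⟨pure 0, (mem_WF_iff 0 _).mpr (rkEQ_zero_pure 0)⟩
  | succ n ih =>
    obtain ⟨u, hu⟩ := ih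
    obtain ⟨v, hv⟩ := h1
    rw [mem_WF_iff] at hu hv
    -- the product `u ⊗ v`
    let f : ℕ → Ultrafilter ℕ := fun i => v.map (Nat.pair i)
    refine ⟨u.bind f, (mem_WF_iff _ _).mpr (RkEQ.add (m := 1) (f := f)
      (c := fun p => p.unpair.1) ⟨rfl, ?_⟩ hu ?_)⟩
    · refine Filter.mem_of_superset Filter.univ_mem fun i _ => ?_
      refine Filter.mem_of_superset Filter.univ_mem fun j _ => ?_
      simp
    · refine Filter.mem_of_superset Filter.univ_mem fun i _ => ?_
      have hinj : Function.Injective (Nat.pair i) := by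
        intro a b hab
        have h3 := congrArg (fun n => (Nat.unpair n).2) hab
        simpa using h3
      exact hv.congr (map_equiv v hinj).1 (map_equiv v hinj).2

/-- **Main theorem.** The first part says that `Acc RFLT` defines the well-founded part and that
`Acc.rank` is the rank. The displayed equality holds for `n = 1` and fails for `n ≥ 2`. For
all finite `n`, `m` the sums of ultrafilters of rank `m` over an ultrafilter of rank `n` are
exactly the ultrafilters of rank `n + m`. Finally, if `u` and all `f(i)` are discretely weak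
p-points, then `f~(u)` has rank `2`. -/
theorem result :
    ((∀ u, Acc RFLT u ↔ ¬ ∃ s : ℕ → Ultrafilter ℕ, s 0 = u ∧ ∀ n, RFLT (s (n + 1)) (s n)) ∧
      ∀ u (h : Acc RFLT u), h.rank = ⨆ v : {v // RFLT v u}, (h.inv v.2).rank + 1) ∧
    (∀ n : ℕ, 0 < n → (WF (n + 1) = Sums n n ↔ n = 1)) ∧
    (∀ n m : ℕ, WF (n + m) = Sums n m) ∧
    (∀ n : ℕ, (WF n).Nonempty) ∧
    (∀ (u : Ultrafilter ℕ) (f : ℕ → Ultrafilter ℕ), Function.Injective f →
      IsDiscreteSet (range f) → DiscretelyWeakPPoint u → (∀ i, DiscretelyWeakPPoint (f i)) →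
      u.bind f ∈ WF 2) := by
  have hadd : ∀ n m : ℕ, WF (n + m) = Sums n m := by
    intro n m
    rw [← wf_add n m, Nat.cast_add]
  refine ⟨⟨fun u => ?_, fun u h => Acc.rank_eq h⟩, fun n hn => ?_, hadd, wf_nonempty,
    fun u f h1 h2 h3 h4 => ?_⟩
  · constructor
    · rintro h ⟨s, rfl, hs⟩
      exact (acc_iff_isEmpty_descending_chain.mp h).false ⟨s, rfl, hs⟩
    · intro h
      refine acc_iff_isEmpty_descending_chain.mpr ⟨?_⟩
      rintro ⟨s, hs1, hs2⟩
      exact h ⟨s, hs1, hs2⟩
  · constructor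
    · intro h
      rw [← hadd] at h
      obtain ⟨q, hq⟩ := wf_nonempty (n + n)
      rw [Nat.cast_add] at hq
      obtain ⟨h1, h2⟩ := hq
      have hq' : q ∈ WF (n + 1) := by
        rw [h]
        exact ⟨h1, h2⟩
      obtain ⟨h3, h4⟩ := hq'
      rw [h2] at h4
      have h5 : ((n + n : ℕ) : Ordinal.{0}) = ((n + 1 : ℕ) : Ordinal.{0}) := by
        push_cast
        exact h4
      have h6 := Nat.cast_injective h5
      omega
    · rintro rfl
      have h1 := hadd 1 1
      rw [← h1]
      simp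
  · have h5 : u.bind f ∈ WF ((1 + 1 : ℕ) : Ordinal.{0}) := by
      rw [wf_add]
      exact ⟨f, u, h1, h2, (mem_WF_iff 1 u).mpr h3.rkEQ,
        fun i => (mem_WF_iff 1 _).mpr (h4 i).rkEQ, rfl⟩
    have h6 : ((1 + 1 : ℕ) : Ordinal.{0}) = 2 := by norm_num
    rwa [h6] at h5

end Pool.Agent.Results.MP_e112c8_lc.SuccessorLevels
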